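import Pool.Agent.Y714.KE.Stm
import Pool.Agent.Y988.KF.Div
import Pool.Agent.Y988.KF.Cls
import Pool.Agent.Y407.KF.Cnt

set_option autoImplicit false

/-! Project KE: families of ideals between `p I` and `I`, residues, ideal classes. -/

namespace Pool.Agent.Y421.KE

open Pool.Agent.Y714.KE
open Pool.Agent.Y714.KF (FI sp ct nm el exists_pow)
open NumberField FractionalIdeal Module Finset

/-- cardinality of a product of finite sets -/
theorem ncard_pi {s : Type} [Fintype s] [DecidableEq s] {X : s → Type} (S : ∀ i, Set (X i))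
    (hS : ∀ i, (S i).Finite) :
    (Set.pi Set.univ S).Finite ∧ (Set.pi Set.univ S).ncard = ∏ i, (S i).ncard := by
  have e : Set.pi Set.univ S = ↑(Fintype.piFinset fun i => (hS i).toFinset) := by
    ext f
    simp [Fintype.mem_piFinset]
  rw [e]
  refine ⟨Finset.finite_toSet _, ?_⟩
  rw [Set.ncard_coe_finset, Fintype.card_piFinset]
  refine Finset.prod_congr rfl fun i _ => ?_
  rw [Set.ncard_eq_toFinset_card (S i) (hS i)]

variable {s : Type} [Fintype s] [DecidableEq s] (K : s → Type) [∀ i, Field (K i)]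
  [∀ i, NumberField (K i)]

theorem div : S_DIV K := by
  intro p hp I
  have h := fun i => Pool.Agent.Y988.KF.div (K := K i) p hp (I i)
  have e : {J : FA K | ∀ i, sp (p : K i) * (I i : FI (K i)) ≤ J i ∧ J i ≤ I i} =
      Set.pi Set.univ fun i => {J : FI (K i) | sp (p : K i) * (I i : FI (K i)) ≤ J ∧ J ≤ I i} := by
    ext J
    simp [Set.mem_pi]
  rw [e]
  obtain ⟨h1, h2⟩ := ncard_pi _ fun i => (h i).1
  refine ⟨h1, ?_⟩
  rw [h2]
  unfold dg
  rw [← Finset.prod_pow_eq_pow_sum]
  exact Finset.prod_le_prod' fun i _ => (h i).2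

theorem cls : S_CLS K := by
  classical
  choose R hR1 hR2 using fun i => Pool.Agent.Y988.KF.cls (K := K i)
  refine ⟨Fintype.piFinset R, ?_, ?_⟩
  · intro I
    choose r hr x hx using fun i => hR1 i (I i)
    exact ⟨r, Fintype.mem_piFinset.2 hr, x, hx⟩
  · intro r hr r' hr' x hx
    rw [Fintype.mem_piFinset] at hr hr'
    funext i
    exact hR2 i (r i) (hr i) (r' i) (hr' i) (x i) (hx i).1 (hx i).2

theorem cnt : S_CNT K := by
  intro p hp I b hb J m h1 h2 h3
  haveI : NeZero p := ⟨hp.ne_zero⟩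
  have hI : ∀ i, (I i : FI (K i)) ≠ 0 := fun i => (I i).ne_zero
  choose mi _ hmi using fun i => exists_pow hp (hI i) (h1 i) (h2 i)
  have hm : m = ∑ i, mi i := by
    have hA : nA (cf I) ≠ 0 := by
      unfold nA
      exact Finset.prod_ne_zero_iff.2 fun i _ => (Pool.Agent.Y714.KF.nm_pos (hI i)).ne'
    have e : nA J = (p : ℚ) ^ (∑ i, mi i) * nA (cf I) := by
      unfold nA
      rw [← Finset.prod_pow_eq_pow_sum, ← Finset.prod_mul_distrib]
      exact Finset.prod_congr rfl fun i _ => hmi i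
    rw [h3] at e
    have e1 := mul_right_cancel₀ hA e
    have e2 : p ^ m = p ^ (∑ i, mi i) := by exact_mod_cast e1
    exact Nat.pow_right_injective hp.two_le e2
  set T : ∀ i, Set (Fin (finrank ℚ (K i)) → ZMod p) := fun i =>
    {t | ∃ z : Fin (finrank ℚ (K i)) → ℤ, (fun j => (z j : ZMod p)) = t ∧ el (b i) z ∈ J i} with hT
  have hc : ∀ i, (T i).ncard * p ^ mi i = p ^ finrank ℚ (K i) := fun i =>
    Pool.Agent.Y407.KF.cnt (K := K i) p hp (I i) (b i) (hb i) (J i) (mi i) (h1 i) (h2 i) (hmi i)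
  have himg : {t : Ix K → ZMod p | ∃ z : Ix K → ℤ, (fun j => (z j : ZMod p)) = t ∧
      ∀ i, el (b i) (fun j => z ⟨i, j⟩) ∈ J i}.ncard = (Set.pi Set.univ T).ncard := by
    have hinj : Function.Injective (fun (t : Ix K → ZMod p) (i : s)
        (j : Fin (finrank ℚ (K i))) => t ⟨i, j⟩) := by
      intro t t' h
      funext ⟨i, j⟩
      exact congrFun (congrFun h i) j
    rw [← Set.ncard_image_of_injective _ hinj]
    congr 1
    ext f
    constructor
    · rintro ⟨t, ⟨z, hz, hJ⟩, rfl⟩ i _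
      exact ⟨fun j => z ⟨i, j⟩, by rw [← hz], hJ i⟩
    · intro hf
      choose z hz using fun i => hf i (Set.mem_univ i)
      refine ⟨fun j => f j.1 j.2, ⟨fun j => z j.1 j.2, ?_, fun i => (hz i).2⟩, rfl⟩
      funext j
      exact congrFun (hz j.1).1 j.2
  rw [himg, (ncard_pi T fun i => Set.toFinite _).2, hm, ← Finset.prod_pow_eq_pow_sum,
    ← Finset.prod_mul_distrib]
  unfold dg
  rw [← Finset.prod_pow_eq_pow_sum]
  exact Finset.prod_congr rfl fun i _ => hc i

end Pool.Agent.Y421.KE
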